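import Pool.Agent.Q229.PT.Wit

/-!
# Parikh tree automata with reset recognise more tree languages than those without

The alphabet has a binary symbol `c`, unary symbols `a`, `b` and a leaf symbol `e`.  The witness is
the language of a linear PTAR with two counters; a caterpillar
`aⁿ¹ c(bᵐ¹ e, aⁿ² c(bᵐ² e, …))` belongs to it iff `nᵢ = mᵢ` for all `i`.

Suppose that a PTA with `m` counters recognises it, and put `k = m + 1`.  By Higman's lemma the run
data of the caterpillars with `k` matched segments are well-quasi-ordered.  Hence there is a base
run and for every `i ≤ k` a comparable run in which the segments after `i` have the same lengths and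
the `i`-th segment is longer.  The differences may be pumped independently.  The `k` total increment
vectors are linearly dependent, which gives two runs with the same state and the same counters at
the `i`-th symbol `c` but with different `i`-th segments.  Now the `i`-th side branches may be
exchanged.
-/

namespace Pool.Agent.Results.MP_78a33a_lc.ResetIsStronger

open Q229.PT

/-- **Reset is stronger.**  There are a finite ranked alphabet and a (linear) PTAR with two counters
such that no PTA, with any number of counters, recognises the same tree language. -/
theorem result : ∃ (S : Type) (_ : Finite S) (rk : S → ℕ) (B : PTAR S rk 2), B.IsLinear ∧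
    ∀ (m : ℕ) (A : PTAR S rk m), A.IsPTA → A.lang ≠ B.lang := by
  refine ⟨Sym, inferInstance, Sym.rk, wit, wit_linear, fun m A hA h => ?_⟩
  exact no_pta A hA (fun l hl => by rw [h]; exact (wit_cat l).2 hl)
    (fun l hl => (wit_cat l).1 (by rw [← h]; exact hl))

end Pool.Agent.Results.MP_78a33a_lc.ResetIsStronger
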